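import Mathlib
import Pool.Agent.Y126.AV.Defs
import Pool.Agent.H204R3.GP.MT

/-!
# From the generation in degree two to algebraic cycles
-/

namespace Pool.Agent.Y126.AV

open Module Pool.Agent.H204R3.GP

section Wedge

variable {k W : Type} [Field k] [CharZero k] [AddCommGroup W] [Module k W]

/-- The bilinear form given by an alternating form. -/
noncomputable def toBil : (W [⋀^Fin 2]→ₗ[k] k) →ₗ[k] (W →ₗ[k] W →ₗ[k] k) where
  toFun B := LinearMap.mk₂ k (fun x y => B ![x, y])
    (fun x x' y => by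
      have h := B.map_update_add ![x, y] 0 x x'
      simpa [Function.update, Matrix.cons_val_zero] using by
        have e : ∀ z : W, Function.update ![x, y] 0 z = ![z, y] := by
          intro z; ext i; fin_cases i <;> rfl
        rw [e, e, e] at h
        exact h)
    (fun c x y => by
      have h := B.map_update_smul ![x, y] 0 c x
      have e : ∀ z : W, Function.update ![x, y] 0 z = ![z, y] := by
        intro z; ext i; fin_cases i <;> rfl
      rw [e, e] at h
      exact h)
    (fun x y y' => by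
      have h := B.map_update_add ![x, y] 1 y y'
      have e : ∀ z : W, Function.update ![x, y] 1 z = ![x, z] := by
        intro z; ext i; fin_cases i <;> rfl
      rw [e, e, e] at h
      exact h)
    (fun c x y => by
      have h := B.map_update_smul ![x, y] 1 c y
      have e : ∀ z : W, Function.update ![x, y] 1 z = ![x, z] := by
        intro z; ext i; fin_cases i <;> rfl
      rw [e, e] at h
      exact h)
  map_add' B B' := by
    ext x y
    rfl
  map_smul' c B := by
    ext x y
    rfl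

theorem toBil_apply (B : W [⋀^Fin 2]→ₗ[k] k) (x y : W) : toBil B x y = B ![x, y] := rfl

/-- The alternatization as a linear map. -/
noncomputable def altL {κ : Type} [Fintype κ] [DecidableEq κ] :
    MultilinearMap k (fun _ : κ => W) k →ₗ[k] W [⋀^κ]→ₗ[k] k where
  toFun φ := MultilinearMap.alternatization φ
  map_add' φ ψ := map_add _ φ ψ
  map_smul' c φ := by
    ext v
    simp only [MultilinearMap.alternatization_apply, RingHom.id_apply, AlternatingMap.smul_apply,
      Finset.smul_sum]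
    refine Finset.sum_congr rfl fun σ _ => ?_
    change _ • (c • φ fun i => v (σ i)) = c • (_ • φ fun i => v (σ i))
    rw [smul_comm]

theorem isWedge_altL {m : ℕ} (B : Fin m → W [⋀^Fin 2]→ₗ[k] k) :
    IsWedge B (altL (mmG 1 fun l => toBil (B l))) := by
  intro v
  change MultilinearMap.alternatization _ v = _
  rw [MultilinearMap.alternatization_apply]
  refine Finset.sum_congr rfl fun σ _ => ?_
  rw [Units.smul_def, zsmul_eq_mul]
  rfl

theorem wedge_mem [FiniteDimensional k W] {m : ℕ} {D : Set (W [⋀^Fin 2]→ₗ[k] k)}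
    {C : Set (W [⋀^Fin m × Fin 2]→ₗ[k] k)}
    (hC : ∀ (B : Fin m → W [⋀^Fin 2]→ₗ[k] k) (g), (∀ l, B l ∈ D) → IsWedge B g → g ∈ C)
    {B : Fin m → W [⋀^Fin 2]→ₗ[k] k} (hB : ∀ l, B l ∈ Submodule.span k D)
    {g : W [⋀^Fin m × Fin 2]→ₗ[k] k} (hg : IsWedge B g) : g ∈ Submodule.span k C := by
  have h1 : g = altL (mmG 1 fun l => toBil (B l)) := by
    ext v
    rw [hg v, isWedge_altL B v]
  have h2 := mmG_mem_span (1 : Equiv.Perm (Fin m × Fin 2)) (toBil '' D)
    (fun l => toBil (B l)) (fun l => by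
      rw [← Submodule.map_span]
      exact Submodule.mem_map_of_mem (hB l))
  rw [h1]
  have h3 := Submodule.mem_map_of_mem (f := altL) h2
  rw [Submodule.map_span] at h3
  refine Submodule.span_mono ?_ h3
  rintro _ ⟨_, ⟨b, hb, rfl⟩, rfl⟩
  choose B' hB' hb' using hb
  have h4 : b = fun l => toBil (B' l) := funext fun l => (hb' l).symm
  rw [h4]
  exact hC B' _ hB' (isWedge_altL B')

end Wedge

/-- The Tate conjecture from the generation in degree two. -/
theorem algebraic_of_generated {ℓ : ℕ} [Fact ℓ.Prime] {V Γ : Type} [AddCommGroup V]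
    [Module ℚ_[ℓ] V] [FiniteDimensional ℚ_[ℓ] V] [Group Γ]
    {ρ : Representation ℚ_[ℓ] Γ V} {χ : Γ →* ℚ_[ℓ]}
    {D : ∀ n : ℕ, Set ((Fin n → V) [⋀^Fin 2]→ₗ[ℚ_[ℓ]] ℚ_[ℓ])}
    {C : ∀ n m : ℕ, Set ((Fin n → V) [⋀^Fin m × Fin 2]→ₗ[ℚ_[ℓ]] ℚ_[ℓ])}
    (hC : IsCycleClasses ρ χ D C) (h : TateGeneratedInDegreeTwo ρ χ)
    (n m : ℕ) (f : (Fin n → V) [⋀^Fin m × Fin 2]→ₗ[ℚ_[ℓ]] ℚ_[ℓ]) (hf : IsTateClass ρ χ m f) :
    f ∈ Submodule.span ℚ_[ℓ] (C n m) := by
  refine Submodule.span_le.2 ?_ (h n m f hf)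
  rintro g ⟨B, hB, hg⟩
  exact wedge_mem (fun B g => hC.intersection n m B g) (fun l => hC.faltings n (B l) (hB l)) hg

end Pool.Agent.Y126.AV
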